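import Mathlib
import Pool.Agent.H50.Fibration

set_option autoImplicit false

namespace Pool.Agent.Results.MP_024832_nt.FiniteZ

open AlgebraicGeometry CategoryTheory Limits

/-- The rational points of `E` (sections of the structure map `s`) whose fibre under `φ` has a
real point and a `ℚ_p`-point for every prime `p`. -/
def Z {X E : Scheme.{0}} (s : E ⟶ Spec (CommRingCat.of ℚ)) (φ : X ⟶ E) :
    Set (Spec (CommRingCat.of ℚ) ⟶ E) :=
  {σ | σ ≫ s = 𝟙 _ ∧ Nonempty (Spec (CommRingCat.of ℝ) ⟶ pullback φ σ) ∧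
    ∀ (p : ℕ) [Fact p.Prime], Nonempty (Spec (CommRingCat.of ℚ_[p]) ⟶ pullback φ σ)}

/-- `E` is any integral `ℚ`-scheme containing the affine Weierstrass curve as an open subscheme,
for instance the projective curve. -/
theorem result : ∃ W : WeierstrassCurve ℚ, W = ⟨0, 0, 0, -1, 1⟩ ∧ W.IsElliptic ∧
    0 < Module.rank ℤ W.toAffine.Point ∧
    ∀ (E : Scheme.{0}) [IsIntegral E] (s : E ⟶ Spec (CommRingCat.of ℚ))
      (j : Spec (CommRingCat.of W.toAffine.CoordinateRing) ⟶ E) [IsOpenImmersion j],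
      j ≫ s = Spec.map (CommRingCat.ofHom (algebraMap ℚ W.toAffine.CoordinateRing)) →
      ∃ (X : Scheme.{0}) (φ : X ⟶ E), IsIntegral X ∧ LocallyOfFiniteType (φ ≫ s) ∧
        QuasiCompact (φ ≫ s) ∧ IsSeparated (φ ≫ s) ∧ IsDominant φ ∧ Smooth φ ∧
        Smooth (φ.fiberToSpecResidueField (genericPoint E)) ∧
        GeometricallyIrreducible (φ.fiberToSpecResidueField (genericPoint E)) ∧
        (Z s φ).Finite ∧ (Z s φ).Nonempty :=
  ⟨_, rfl, H50.Fibration.elliptic, H50.Fibration.rank_pos,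
    fun E _ s j _ hj => H50.Fibration.main E s j hj⟩

end Pool.Agent.Results.MP_024832_nt.FiniteZ
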